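import Pool.Agent.W516.KU.Defs

/-!
Project KU (helper214 for helper516): the special unitary Lie algebra has an additional commuting
endomorphism.
-/

set_option autoImplicit false

namespace Pool.Agent.W214.KU

open Module Pool.Agent.W516.K3 Pool.Agent.W516.KU

section Ring

variable {A ι : Type*} [Ring A] (a : ι → A)

/-- product along a list -/
def pr (L : List ι) : A := (L.map a).prod

lemma pr_cons (i : ι) (L : List ι) : pr a (i :: L) = a i * pr a L := by
  simp [pr]

/-- the derivation -/
def dr (φ : ι → A) : List ι → A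
  | [] => 0
  | i :: L => φ i * pr a L + a i * dr φ L

lemma comm_pr (Z : A) (φ : ι → A) (h : ∀ i, Z * a i - a i * Z = φ i) (L : List ι) :
    Z * pr a L - pr a L * Z = dr a φ L := by
  induction L with
  | nil => simp [pr, dr]
  | cons i L ih =>
    rw [pr_cons, dr, ← ih, ← h]
    noncomm_ring

lemma dr_sum {κ : Type*} (s : Finset κ) (φ : κ → ι → A) (L : List ι) :
    dr a (fun i => ∑ w ∈ s, φ w i) L = ∑ w ∈ s, dr a (φ w) L := by
  induction L with
  | nil => simp [dr]
  | cons i L ih => simp only [dr, ih, Finset.sum_mul, Finset.mul_sum, Finset.sum_add_distrib]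

lemma comm_all (j : A) (h : ∀ i, j * a i = a i * j) (L : List ι) : j * pr a L = pr a L * j := by
  induction L with
  | nil => simp [pr]
  | cons i L ih => rw [pr_cons, ← mul_assoc, h, mul_assoc, ih, mul_assoc]

variable (h1 : ∀ i j, a i * a j = -(a j * a i)) (h0 : ∀ i, a i * a i = 0)

include h1 h0

lemma mul_pr_mem (i : ι) (L : List ι) (hi : i ∈ L) : a i * pr a L = 0 := by
  induction L with
  | nil => simp at hi
  | cons j L ih =>
    rw [pr_cons]
    rcases List.mem_cons.1 hi with rfl | hi
    · rw [← mul_assoc, h0, zero_mul]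
    · rw [← mul_assoc, h1, neg_mul, mul_assoc, ih hi, mul_zero, neg_zero]

lemma mul_dr (z : ι → A) (hz : ∀ i j, z i * a j = a j * z i) (w : ι) (L : List ι) :
    a w * dr a (fun i => z i * a w) L = 0 := by
  induction L with
  | nil => simp [dr]
  | cons i L ih =>
    rw [dr, mul_add]
    have e1 : a w * (z i * a w * pr a L) = z i * (a w * a w) * pr a L := by
      rw [← mul_assoc, ← mul_assoc, ← hz, mul_assoc (z i)]
    have e2 : a w * (a i * dr a (fun i => z i * a w) L) =
        -(a i * (a w * dr a (fun i => z i * a w) L)) := by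
      rw [← mul_assoc, h1, neg_mul, mul_assoc]
    rw [e1, e2, h0, ih]
    simp

lemma dr_single (z : ι → A) (hz : ∀ i j, z i * a j = a j * z i) (w : ι) (L : List ι)
    (hw : w ∈ L) : dr a (fun i => z i * a w) L = z w * pr a L := by
  induction L with
  | nil => simp at hw
  | cons i L ih =>
    rw [dr, pr_cons]
    rcases List.mem_cons.1 hw with rfl | hw
    · rw [mul_dr a h1 h0 z hz, add_zero, mul_assoc]
    · rw [ih hw, mul_assoc, mul_pr_mem a h1 h0 w L hw, mul_zero, zero_add, ← mul_assoc, ← hz,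
        mul_assoc]

omit h1 h0 in
lemma pr_ne_zero [Nontrivial A] (c : ι → A) (h2 : ∀ i j, i ≠ j → c i * a j = -(a j * c i))
    (r : ι → A) (h3 : ∀ i, c i * a i + a i * c i = r i) (hr : ∀ i X, r i * X = 0 → X = 0)
    (L : List ι) (hL : L.Nodup) : pr a L ≠ 0 := by
  have key : ∀ (i : ι) (L : List ι), i ∉ L → ∃ ε : A, c i * pr a L = pr a L * c i * ε := by
    intro i L
    induction L with
    | nil => intro _; exact ⟨1, by simp [pr]⟩
    | cons j L ih =>
      intro hi
      rw [List.mem_cons, not_or] at hi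
      obtain ⟨ε, hε⟩ := ih hi.2
      refine ⟨-ε, ?_⟩
      rw [pr_cons, ← mul_assoc, h2 i j hi.1, neg_mul, mul_assoc, hε]
      simp only [mul_assoc, mul_neg]
  induction L with
  | nil => simp [pr]
  | cons i L ih =>
    intro h
    rw [List.nodup_cons] at hL
    refine ih hL.2 (hr i _ ?_)
    obtain ⟨ε, hε⟩ := key i L hL.1
    rw [pr_cons] at h
    rw [← h3, add_mul, mul_assoc, h, mul_zero, zero_add, mul_assoc, hε, ← mul_assoc, ← mul_assoc,
      h, zero_mul, zero_mul]

end Ring

section Anti

variable {A : Type*} [Ring A] (j p q p' q' : A) (hjj : j * j = -1) (hp : j * p = p * j)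
  (hp' : j * p' = p' * j)

include hjj hp hp'

lemma exp1 : (p - j * p') * (q - j * q') = p * q - j * (p * q' + p' * q) - p' * q' := by
  have e1 : p * (j * q') = j * (p * q') := by rw [← mul_assoc, ← hp, mul_assoc]
  have e2 : j * p' * (j * q') = -(p' * q') := by
    rw [mul_assoc, ← mul_assoc p', ← hp', mul_assoc j p' q', ← mul_assoc, hjj]
    simp
  rw [sub_mul, mul_sub, mul_sub, e1, e2]
  noncomm_ring

lemma exp2 : (p + j * p') * (q - j * q') = p * q + j * (p' * q - p * q') + p' * q' := by
  have e1 : p * (j * q') = j * (p * q') := by rw [← mul_assoc, ← hp, mul_assoc]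
  have e2 : j * p' * (j * q') = -(p' * q') := by
    rw [mul_assoc, ← mul_assoc p', ← hp', mul_assoc j p' q', ← mul_assoc, hjj]
    simp
  rw [add_mul, mul_sub, mul_sub, e1, e2]
  noncomm_ring

lemma exp3 : (p - j * p') * (q + j * q') = p * q + j * (p * q' - p' * q) + p' * q' := by
  have e1 : p * (j * q') = j * (p * q') := by rw [← mul_assoc, ← hp, mul_assoc]
  have e2 : j * p' * (j * q') = -(p' * q') := by
    rw [mul_assoc, ← mul_assoc p', ← hp', mul_assoc j p' q', ← mul_assoc, hjj]
    simp
  rw [sub_mul, mul_add, mul_add, e1, e2]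
  noncomm_ring

end Anti

section Double

variable {H : Type} [AddCommGroup H] [Module ℝ H]

/-- The diagonal action. -/
def dd (Z : Module.End ℝ H) : Module.End ℝ (H × H) := LinearMap.prodMap Z Z

/-- The complex structure. -/
def jj : Module.End ℝ (H × H) :=
  LinearMap.prod (-(LinearMap.snd ℝ H H)) (LinearMap.fst ℝ H H)

lemma dd_apply (Z : Module.End ℝ H) (p : H × H) : dd Z p = (Z p.1, Z p.2) := rfl

lemma jj_apply (p : H × H) : (jj : Module.End ℝ (H × H)) p = (-p.2, p.1) := rfl

lemma dd_mul (Z W : Module.End ℝ H) : dd (Z * W) = dd Z * dd W := rfl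

lemma dd_add (Z W : Module.End ℝ H) : dd (Z + W) = dd Z + dd W := by
  ext <;> simp [dd_apply]

lemma dd_sub (Z W : Module.End ℝ H) : dd (Z - W) = dd Z - dd W := by
  ext <;> simp [dd_apply]

lemma dd_smul (r : ℝ) (Z : Module.End ℝ H) : dd (r • Z) = r • dd Z := by
  ext <;> simp [dd_apply]

lemma dd_one : dd (1 : Module.End ℝ H) = 1 := rfl

lemma dd_neg (Z : Module.End ℝ H) : dd (-Z) = -dd Z := by
  ext <;> simp [dd_apply]

lemma jj_sq : (jj : Module.End ℝ (H × H)) * jj = -1 := by
  apply LinearMap.ext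
  intro p
  rw [Module.End.mul_apply, jj_apply, jj_apply]
  simp [Prod.ext_iff]

lemma jj_dd (Z : Module.End ℝ H) : jj * dd Z = dd Z * jj := by
  apply LinearMap.ext
  intro p
  rw [Module.End.mul_apply, Module.End.mul_apply, jj_apply, dd_apply, dd_apply, jj_apply]
  simp

/-- real part -/
def re (X : Module.End ℝ (H × H)) : Module.End ℝ H :=
  LinearMap.fst ℝ H H ∘ₗ X ∘ₗ LinearMap.inl ℝ H H

/-- imaginary part -/
def im (X : Module.End ℝ (H × H)) : Module.End ℝ H :=
  LinearMap.snd ℝ H H ∘ₗ X ∘ₗ LinearMap.inl ℝ H H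

lemma re_apply (X : Module.End ℝ (H × H)) (h : H) : re X h = (X (h, 0)).1 := rfl
lemma im_apply (X : Module.End ℝ (H × H)) (h : H) : im X h = (X (h, 0)).2 := rfl

lemma re_left (Z : Module.End ℝ H) (X : Module.End ℝ (H × H)) : re (dd Z * X) = Z * re X := rfl
lemma im_left (Z : Module.End ℝ H) (X : Module.End ℝ (H × H)) : im (dd Z * X) = Z * im X := rfl

lemma re_right (Z : Module.End ℝ H) (X : Module.End ℝ (H × H)) : re (X * dd Z) = re X * Z := by
  apply LinearMap.ext
  intro h
  rw [re_apply, Module.End.mul_apply, Module.End.mul_apply, re_apply, dd_apply]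
  simp

lemma im_right (Z : Module.End ℝ H) (X : Module.End ℝ (H × H)) : im (X * dd Z) = im X * Z := by
  apply LinearMap.ext
  intro h
  rw [im_apply, Module.End.mul_apply, Module.End.mul_apply, im_apply, dd_apply]
  simp

lemma re_jj (X : Module.End ℝ (H × H)) : re (jj * X) = -im X := rfl
lemma im_jj (X : Module.End ℝ (H × H)) : im (jj * X) = re X := rfl

lemma re_sub (X Y : Module.End ℝ (H × H)) : re (X - Y) = re X - re Y := rfl
lemma im_sub (X Y : Module.End ℝ (H × H)) : im (X - Y) = im X - im Y := rfl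
lemma re_smul (r : ℝ) (X : Module.End ℝ (H × H)) : re (r • X) = r • re X := rfl
lemma im_smul (r : ℝ) (X : Module.End ℝ (H × H)) : im (r • X) = r • im X := rfl

lemma eq_zero_of (X : Module.End ℝ (H × H)) (hX : jj * X = X * jj) (h1 : re X = 0)
    (h2 : im X = 0) : X = 0 := by
  have h3 : ∀ h : H, X (h, 0) = 0 := by
    intro h
    have e1 := congrArg (fun f : Module.End ℝ H => f h) h1
    have e2 := congrArg (fun f : Module.End ℝ H => f h) h2
    simp only [re_apply, im_apply, LinearMap.zero_apply] at e1 e2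
    exact Prod.ext e1 e2
  apply LinearMap.ext
  rintro ⟨x, y⟩
  have e3 : ((x, y) : H × H) = (x, 0) + jj (y, 0) := by
    rw [jj_apply]; simp
  rw [e3, map_add, h3, ← Module.End.mul_apply, ← hX, Module.End.mul_apply, h3, map_zero]
  simp

end Double

section Basis

variable {T : Type} [AddCommGroup T] [Module ℝ T] {b : T →ₗ[ℝ] T →ₗ[ℝ] ℝ} {J : Module.End ℝ T}

lemma JJ (hb : Herm b J) (t : T) : J (J t) = -t := by
  have := congrArg (fun f : Module.End ℝ T => f t) hb.sq
  simpa using this

lemma bJ (hb : Herm b J) (u v : T) : b (J u) v = -b u (J v) := by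
  have h1 := hb.isom u (J v)
  rw [JJ hb, map_neg] at h1
  linarith

lemma bJself (hb : Herm b J) (v : T) : b v (J v) = 0 := by
  have h1 := bJ hb v v
  have h2 := hb.symm (J v) v
  linarith

/-- An orthogonal family of the hermitian space. -/
structure Ort (b : T →ₗ[ℝ] T →ₗ[ℝ] ℝ) (J : Module.End ℝ T) {n : ℕ} (v : Fin n → T) : Prop where
  ne : ∀ i, b (v i) (v i) ≠ 0
  o1 : ∀ i j, i ≠ j → b (v i) (v j) = 0
  o2 : ∀ i j, i ≠ j → b (v i) (J (v j)) = 0

/-- the projection to the span of the family -/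
noncomputable def pj (b : T →ₗ[ℝ] T →ₗ[ℝ] ℝ) (J : Module.End ℝ T) {n : ℕ} (v : Fin n → T) (t : T) :
    T := ∑ i, ((b t (v i) / b (v i) (v i)) • v i + (b t (J (v i)) / b (v i) (v i)) • J (v i))

lemma b_pj (hb : Herm b J) {n : ℕ} {v : Fin n → T} (hv : Ort b J v) (t : T) (k : Fin n) :
    b (pj b J v t) (v k) = b t (v k) ∧ b (pj b J v t) (J (v k)) = b t (J (v k)) := by
  have hne := hv.ne k
  constructor
  · unfold pj
    rw [map_sum, LinearMap.sum_apply, Finset.sum_eq_single k]
    · simp only [map_add, LinearMap.add_apply, map_smul, LinearMap.smul_apply, smul_eq_mul]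
      rw [bJ hb, bJself hb]
      field_simp
      ring
    · intro i _ hi
      simp only [map_add, LinearMap.add_apply, map_smul, LinearMap.smul_apply, smul_eq_mul]
      rw [bJ hb, hv.o1 i k hi, hv.o2 i k hi]
      ring
    · intro h; exact absurd (Finset.mem_univ k) h
  · unfold pj
    rw [map_sum, LinearMap.sum_apply, Finset.sum_eq_single k]
    · simp only [map_add, LinearMap.add_apply, map_smul, LinearMap.smul_apply, smul_eq_mul]
      rw [hb.isom, bJself hb]
      field_simp
      ring
    · intro i _ hi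
      simp only [map_add, LinearMap.add_apply, map_smul, LinearMap.smul_apply, smul_eq_mul]
      rw [hb.isom, hv.o1 i k hi, hv.o2 i k hi]
      ring
    · intro h; exact absurd (Finset.mem_univ k) h

lemma exists_basis [FiniteDimensional ℝ T] (hb : Herm b J) :
    ∃ (n : ℕ) (v : Fin n → T), Ort b J v ∧ ∀ t, pj b J v t = t := by
  have h0 : ∃ n : ℕ, (∃ v : Fin n → T, Ort b J v) ∧ ¬ ∃ v : Fin (n + 1) → T, Ort b J v := by
    by_contra hcon
    push Not at hcon
    have hall : ∀ n : ℕ, ∃ v : Fin n → T, Ort b J v := by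
      intro n
      induction n with
      | zero => exact ⟨fun i => i.elim0, ⟨fun i => i.elim0, fun i => i.elim0, fun i => i.elim0⟩⟩
      | succ n ih => exact hcon n ih
    obtain ⟨v, hv⟩ := hall (finrank ℝ T + 1)
    have h1 := LinearMap.linearIndependent_of_isOrthoᵢ (B := b) (v := v)
      (LinearMap.isOrthoᵢ_def.2 hv.o1) hv.ne
    have h2 := h1.fintype_card_le_finrank
    rw [Fintype.card_fin] at h2
    omega
  obtain ⟨n, ⟨v, hv⟩, hmax⟩ := h0
  refine ⟨n, v, hv, ?_⟩
  -- the orthogonal complement is zero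
  have hU : ∀ u, (∀ i, b u (v i) = 0 ∧ b u (J (v i)) = 0) → b u u = 0 := by
    intro u hu
    by_contra hne
    refine hmax ⟨Fin.cons u v, ⟨?_, ?_, ?_⟩⟩
    · intro i
      refine Fin.cases ?_ (fun i => ?_) i
      · simpa using hne
      · simpa using hv.ne i
    · intro i j
      refine Fin.cases ?_ (fun i => ?_) i
      · refine Fin.cases ?_ (fun j => ?_) j
        · intro h; exact absurd rfl h
        · intro _; simpa using (hu j).1
      · refine Fin.cases ?_ (fun j => ?_) j
        · intro _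
          have := (hu i).1
          rw [hb.symm] at this
          simpa using this
        · intro h
          simpa using hv.o1 i j (fun e => h (by rw [e]))
    · intro i j
      refine Fin.cases ?_ (fun i => ?_) i
      · refine Fin.cases ?_ (fun j => ?_) j
        · intro h; exact absurd rfl h
        · intro _; simpa using (hu j).2
      · refine Fin.cases ?_ (fun j => ?_) j
        · intro _
          have h1 := (hu i).2
          have h2 := bJ hb (v i) u
          rw [hb.symm, h1] at h2
          simp only [Fin.cons_succ, Fin.cons_zero]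
          linarith
        · intro h
          simpa using hv.o2 i j (fun e => h (by rw [e]))
  have hU2 : ∀ u w, (∀ i, b u (v i) = 0 ∧ b u (J (v i)) = 0) →
      (∀ i, b w (v i) = 0 ∧ b w (J (v i)) = 0) → b u w = 0 := by
    intro u w hu hw
    have h1 := hU (u + w) (fun i => by
      rw [map_add, LinearMap.add_apply, LinearMap.add_apply, (hu i).1, (hu i).2, (hw i).1,
        (hw i).2]
      simp)
    have h2 := hU u hu
    have h3 := hU w hw
    simp only [map_add, LinearMap.add_apply] at h1
    rw [h2, h3, hb.symm w u] at h1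
    linarith
  have hproj : ∀ t i, b (t - pj b J v t) (v i) = 0 ∧ b (t - pj b J v t) (J (v i)) = 0 := by
    intro t i
    have := b_pj hb hv t i
    rw [map_sub, LinearMap.sub_apply, LinearMap.sub_apply, this.1, this.2]
    simp
  have h4 : ∀ u, (∀ i, b u (v i) = 0 ∧ b u (J (v i)) = 0) → u = 0 := by
    intro u h5
    refine hb.nondeg _ fun w => ?_
    have e : w = (w - pj b J v w) + pj b J v w := by abel
    rw [e, map_add, hU2 _ _ h5 (hproj w), zero_add]
    unfold pj
    rw [map_sum]
    refine Finset.sum_eq_zero fun i _ => ?_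
    rw [map_add, map_smul, map_smul, (h5 i).1, (h5 i).2]
    simp
  intro t
  exact (sub_eq_zero.1 (h4 _ (hproj t))).symm

lemma trace_eq [FiniteDimensional ℝ T] (hb : Herm b J) {n : ℕ} {v : Fin n → T}
    (hpj : ∀ t, pj b J v t = t) (x : Module.End ℝ T)
    (hx : ∀ u v, b (x u) v + b u (x v) = 0) :
    LinearMap.trace ℝ T (x * J) = -2 * ∑ i, b (x (v i)) (J (v i)) / b (v i) (v i) := by
  have e1 : x * J = ∑ i, (((b.flip (v i)).smulRight ((1 / b (v i) (v i)) • (x * J) (v i))) +
      ((b.flip (J (v i))).smulRight ((1 / b (v i) (v i)) • (x * J) (J (v i))))) := by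
    apply LinearMap.ext
    intro t
    conv_lhs => rw [← hpj t]
    unfold pj
    rw [map_sum, LinearMap.sum_apply]
    refine Finset.sum_congr rfl fun i _ => ?_
    simp only [map_add, map_smul, LinearMap.add_apply, LinearMap.smulRight_apply,
      LinearMap.flip_apply, smul_smul, mul_one_div]
  rw [e1, map_sum, Finset.mul_sum]
  refine Finset.sum_congr rfl fun i _ => ?_
  rw [map_add, LinearMap.trace_smulRight, LinearMap.trace_smulRight]
  simp only [LinearMap.flip_apply, map_smul, smul_eq_mul, Module.End.mul_apply]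
  rw [JJ hb, map_neg, map_neg, LinearMap.neg_apply]
  have h1 := hx (J (v i)) (v i)
  have h2 := hb.symm (J (v i)) (x (v i))
  have h3 : b (x (J (v i))) (v i) = -b (x (v i)) (J (v i)) := by linarith
  rw [h3]
  ring

end Basis

section Main

variable {T H : Type} [AddCommGroup T] [Module ℝ T] [AddCommGroup H] [Module ℝ H]
  {b : T →ₗ[ℝ] T →ₗ[ℝ] ℝ} {J : Module.End ℝ T} (γ : T →ₗ[ℝ] Module.End ℝ H)

/-- annihilation operators -/
def av (J : Module.End ℝ T) (t : T) : Module.End ℝ (H × H) := dd (γ t) - jj * dd (γ (J t))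

/-- creation operators -/
def cv (J : Module.End ℝ T) (t : T) : Module.End ℝ (H × H) := dd (γ t) + jj * dd (γ (J t))

lemma jj_av (t : T) : jj * av γ J t = av γ J t * jj := by
  unfold av
  rw [mul_sub, sub_mul, jj_dd, mul_assoc jj (dd _) jj, ← jj_dd (γ (J t))]

lemma av_add (s t : T) : av γ J (s + t) = av γ J s + av γ J t := by
  unfold av
  rw [map_add, map_add, map_add, dd_add, dd_add, mul_add]
  abel

lemma av_smul (r : ℝ) (t : T) : av γ J (r • t) = r • av γ J t := by
  unfold av
  rw [map_smul, map_smul, map_smul, dd_smul, dd_smul, mul_smul_comm, smul_sub]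

lemma av_zero : av γ J 0 = 0 := by
  have := av_smul (J := J) γ 0 0
  simpa using this

lemma av_sum {κ : Type} (s : Finset κ) (f : κ → T) :
    av γ J (∑ i ∈ s, f i) = ∑ i ∈ s, av γ J (f i) := by
  classical
  induction s using Finset.induction_on with
  | empty => simp [av_zero]
  | insert a s ha ih => rw [Finset.sum_insert ha, Finset.sum_insert ha, av_add, ih]

lemma av_J (hb : Herm b J) (t : T) : av γ J (J t) = jj * av γ J t := by
  unfold av
  rw [JJ hb, map_neg, dd_neg, mul_sub, ← mul_assoc, jj_sq]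
  have e1 : (jj : Module.End ℝ (H × H)) * -dd (γ t) = -(jj * dd (γ t)) := by
    apply LinearMap.ext
    intro p
    rw [Module.End.mul_apply, LinearMap.neg_apply, LinearMap.neg_apply, Module.End.mul_apply,
      map_neg]
  have e2 : -1 * dd (γ (J t)) = -dd (γ (J t)) := by
    apply LinearMap.ext
    intro p
    rw [Module.End.mul_apply, LinearMap.neg_apply, LinearMap.neg_apply, Module.End.one_apply]
  rw [e1, e2]
  abel

variable (hγ : ∀ u v, γ u * γ v + γ v * γ u = (2 * b u v) • (1 : Module.End ℝ H))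

include hγ

lemma dd_anti (u v : T) : dd (γ u) * dd (γ v) + dd (γ v) * dd (γ u) =
    (2 * b u v) • (1 : Module.End ℝ (H × H)) := by
  rw [← dd_mul, ← dd_mul, ← dd_add, hγ, dd_smul, dd_one]

lemma av_anti (hb : Herm b J) (s t : T) :
    av γ J s * av γ J t + av γ J t * av γ J s = 0 := by
  unfold av
  rw [exp1 _ _ _ _ _ jj_sq (jj_dd _) (jj_dd _), exp1 _ _ _ _ _ jj_sq (jj_dd _) (jj_dd _)]
  have e1 := dd_anti γ hγ s t
  have e2 := dd_anti γ hγ (J s) (J t)
  have e3 := dd_anti γ hγ s (J t)
  have e4 := dd_anti γ hγ (J s) t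
  rw [hb.isom] at e2
  rw [bJ hb] at e4
  have e5 : dd (γ s) * dd (γ t) - jj * (dd (γ s) * dd (γ (J t)) + dd (γ (J s)) * dd (γ t)) -
      dd (γ (J s)) * dd (γ (J t)) + (dd (γ t) * dd (γ s) - jj * (dd (γ t) * dd (γ (J s)) +
      dd (γ (J t)) * dd (γ s)) - dd (γ (J t)) * dd (γ (J s))) =
      (dd (γ s) * dd (γ t) + dd (γ t) * dd (γ s)) -
      jj * ((dd (γ s) * dd (γ (J t)) + dd (γ (J t)) * dd (γ s)) +
        (dd (γ (J s)) * dd (γ t) + dd (γ t) * dd (γ (J s)))) -
      (dd (γ (J s)) * dd (γ (J t)) + dd (γ (J t)) * dd (γ (J s))) := by noncomm_ring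
  rw [e5, e1, e2, e3, e4, ← add_smul]
  have e6 : 2 * b s (J t) + 2 * -b s (J t) = 0 := by ring
  rw [e6, zero_smul, mul_zero]
  simp

lemma cv_av (hb : Herm b J) (s t : T) :
    cv γ J s * av γ J t + av γ J t * cv γ J s =
      (4 * b s t) • (1 : Module.End ℝ (H × H)) - (4 * b s (J t)) • jj := by
  unfold av cv
  rw [exp2 _ _ _ _ _ jj_sq (jj_dd _) (jj_dd _), exp3 _ _ _ _ _ jj_sq (jj_dd _) (jj_dd _)]
  have e1 := dd_anti γ hγ s t
  have e2 := dd_anti γ hγ (J s) (J t)
  have e3 := dd_anti γ hγ s (J t)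
  have e4 := dd_anti γ hγ (J s) t
  rw [hb.isom] at e2
  rw [bJ hb] at e4
  have e5 : dd (γ s) * dd (γ t) + jj * (dd (γ (J s)) * dd (γ t) - dd (γ s) * dd (γ (J t))) +
      dd (γ (J s)) * dd (γ (J t)) + (dd (γ t) * dd (γ s) + jj * (dd (γ t) * dd (γ (J s)) -
      dd (γ (J t)) * dd (γ s)) + dd (γ (J t)) * dd (γ (J s))) =
      (dd (γ s) * dd (γ t) + dd (γ t) * dd (γ s)) +
      jj * ((dd (γ (J s)) * dd (γ t) + dd (γ t) * dd (γ (J s))) -
        (dd (γ s) * dd (γ (J t)) + dd (γ (J t)) * dd (γ s))) +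
      (dd (γ (J s)) * dd (γ (J t)) + dd (γ (J t)) * dd (γ (J s))) := by
    simp only [mul_add, mul_sub]
    abel
  rw [e5, e1, e2, e3, e4, mul_sub, mul_smul_comm, mul_smul_comm, mul_one]
  module

omit hγ in
lemma comm_av (Z : Module.End ℝ H) (x : Module.End ℝ T) (hZ : IsLift γ Z x)
    (hxJ : ∀ t, x (J t) = J (x t)) (t : T) :
    dd Z * av γ J t - av γ J t * dd Z = av γ J (x t) := by
  unfold av
  have h1 : dd Z * dd (γ t) - dd (γ t) * dd Z = dd (γ (x t)) := by
    rw [← dd_mul, ← dd_mul, ← dd_sub, hZ t]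
  have h2 : dd Z * dd (γ (J t)) - dd (γ (J t)) * dd Z = dd (γ (J (x t))) := by
    rw [← dd_mul, ← dd_mul, ← dd_sub, hZ (J t), hxJ]
  rw [← h1, ← h2, mul_sub, sub_mul, mul_sub jj, ← mul_assoc (dd Z) jj, ← jj_dd Z, mul_assoc jj,
    mul_assoc jj]
  abel

lemma sp_lift (u v t : T) :
    sp γ u v * γ t - γ t * sp γ u v = γ ((4 * b v t) • u - (4 * b u t) • v) := by
  unfold sp
  have e1 : γ v * γ t = (2 * b v t) • (1 : Module.End ℝ H) - γ t * γ v := by
    rw [← hγ v t]; abel
  have e2 : γ u * γ t = (2 * b u t) • (1 : Module.End ℝ H) - γ t * γ u := by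
    rw [← hγ u t]; abel
  have e3 : γ u * γ v * γ t = (2 * b v t) • γ u - (2 * b u t) • γ v + γ t * (γ u * γ v) := by
    rw [mul_assoc, e1, mul_sub, ← mul_assoc, e2, sub_mul]
    simp only [mul_smul_comm, mul_one, smul_mul_assoc, one_mul, mul_assoc]
    abel
  have e4 : γ v * γ u * γ t = (2 * b u t) • γ v - (2 * b v t) • γ u + γ t * (γ v * γ u) := by
    rw [mul_assoc, e2, mul_sub, ← mul_assoc, e1, sub_mul]
    simp only [mul_smul_comm, mul_one, smul_mul_assoc, one_mul, mul_assoc]
    abel
  rw [sub_mul, e3, e4, map_sub, map_smul, map_smul, mul_sub]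
  have e5 : 4 * b v t = 2 * b v t + 2 * b v t := by ring
  have e6 : 4 * b u t = 2 * b u t + 2 * b u t := by ring
  rw [e5, e6, add_smul, add_smul]
  abel

end Main

theorem T_CLA : S_CLA := by
  intro T H _ _ _ _ _ _ _ _ b J γ hb hγ
  obtain ⟨n, v, hv, hpj⟩ := exists_basis hb
  -- n is positive
  have hn : 0 < n := by
    rcases Nat.eq_zero_or_pos n with h0 | h0
    · exfalso
      subst h0
      obtain ⟨t, ht⟩ := exists_ne (0 : T)
      apply ht
      rw [← hpj t]
      simp [pj]
    · exact h0
  set a : Fin n → Module.End ℝ (H × H) := fun i => av γ J (v i) with ha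
  have h1 : ∀ i j, a i * a j = -(a j * a i) := by
    intro i j
    rw [eq_neg_iff_add_eq_zero]
    exact av_anti γ hγ hb _ _
  have h0 : ∀ i, a i * a i = 0 := by
    intro i
    have h2 := av_anti γ hγ hb (v i) (v i)
    rw [← two_smul ℝ] at h2
    exact (smul_eq_zero.1 h2).resolve_left two_ne_zero
  obtain ⟨L, hL⟩ : ∃ L, L = List.finRange n := ⟨_, rfl⟩
  have hLn : L.Nodup := by rw [hL]; exact List.nodup_finRange n
  have hLm : ∀ i, i ∈ L := fun i => by rw [hL]; exact List.mem_finRange i
  have hjA : jj * pr a L = pr a L * jj := comm_all a jj (fun i => jj_av γ (v i)) L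
  have hA : pr a L ≠ 0 := by
    refine pr_ne_zero a (fun i => cv γ J (v i)) (fun i j hij => ?_)
      (fun i => (4 * b (v i) (v i)) • (1 : Module.End ℝ (H × H))) (fun i => ?_) (fun i X hX => ?_)
      L hLn
    · have h2 := cv_av γ hγ hb (v i) (v j)
      rw [hv.o1 i j hij, hv.o2 i j hij] at h2
      rw [eq_neg_iff_add_eq_zero]
      simpa using h2
    · have h2 := cv_av γ hγ hb (v i) (v i)
      rw [bJself hb] at h2
      simpa using h2
    · rw [smul_mul_assoc, one_mul, smul_eq_zero] at hX
      exact hX.resolve_left (mul_ne_zero four_ne_zero (hv.ne i))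
  have hz : ∀ (α β : ℝ) (j : Fin n), (α • (1 : Module.End ℝ (H × H)) + β • jj) * a j =
      a j * (α • (1 : Module.End ℝ (H × H)) + β • jj) := by
    intro α β j
    rw [add_mul, mul_add, smul_mul_assoc, smul_mul_assoc, mul_smul_comm, mul_smul_comm, one_mul,
      mul_one, ha]
    simp only [jj_av]
  refine ⟨re (pr a L), ?_, ?_⟩
  · intro Z x hZ hx hxJ htr
    have hxJ' : ∀ t, x (J t) = J (x t) := fun t => congrArg (fun f : Module.End ℝ T => f t) hxJ
    have h2 : ∀ k, dd Z * a k - a k * dd Z = ∑ i, ((b (x (v k)) (v i) / b (v i) (v i)) •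
        (1 : Module.End ℝ (H × H)) + (b (x (v k)) (J (v i)) / b (v i) (v i)) • jj) * a i := by
      intro k
      rw [ha]
      simp only
      rw [comm_av γ Z x hZ hxJ', ← hpj (x (v k)), pj, av_sum]
      refine Finset.sum_congr rfl fun i _ => ?_
      rw [← pj, hpj, av_add, av_smul, av_smul, av_J γ hb, add_mul, smul_mul_assoc,
        smul_mul_assoc, one_mul]
    have h3 := comm_pr a (dd Z) _ h2 L
    rw [dr_sum] at h3
    have h4 : ∀ i ∈ (Finset.univ : Finset (Fin n)), dr a (fun k => ((b (x (v k)) (v i) /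
        b (v i) (v i)) • (1 : Module.End ℝ (H × H)) +
        (b (x (v k)) (J (v i)) / b (v i) (v i)) • jj) * a i) L =
        (b (x (v i)) (J (v i)) / b (v i) (v i)) • (jj * pr a L) := by
      intro i _
      rw [dr_single a h1 h0 (fun k => (b (x (v k)) (v i) /
        b (v i) (v i)) • (1 : Module.End ℝ (H × H)) +
        (b (x (v k)) (J (v i)) / b (v i) (v i)) • jj) (fun k j => hz _ _ j) i L (hLm i)]
      have h5 : b (x (v i)) (v i) = 0 := by
        have h6 := hx (v i) (v i)
        rw [hb.symm (v i) (x (v i))] at h6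
        linarith
      rw [h5, zero_div, zero_smul, zero_add, smul_mul_assoc]
    rw [Finset.sum_congr rfl h4, ← Finset.sum_smul] at h3
    have h7 := trace_eq hb hpj x hx
    rw [htr] at h7
    have h8 : ∑ i, b (x (v i)) (J (v i)) / b (v i) (v i) = 0 := by linarith
    rw [h8, zero_smul] at h3
    have h9 := congrArg re h3
    rw [re_sub, re_left, re_right] at h9
    exact sub_eq_zero.1 h9
  · intro hcon
    set k : Fin n := ⟨0, hn⟩ with hk
    have hs := hcon (v k) (J (v k))
    set s := sJ γ J (v k) (J (v k)) with hsdef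
    -- the action of s
    have hlift : IsLift γ s ((8 : ℝ) • ((b (J (v k))).smulRight (v k) -
        (b (v k)).smulRight (J (v k)))) := by
      intro t
      have e1 : s = (2 : ℝ) • sp γ (v k) (J (v k)) := by
        rw [hsdef]
        unfold sJ sp
        rw [JJ hb, map_neg, two_smul]
        noncomm_ring
      rw [e1, smul_mul_assoc, mul_smul_comm, ← smul_sub, sp_lift γ hγ _ _ _, ← map_smul]
      congr 1
      simp only [LinearMap.smul_apply, LinearMap.sub_apply, LinearMap.smulRight_apply, smul_sub,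
        smul_smul]
      congr 2 <;> ring
    have hcJ : ∀ t, ((8 : ℝ) • ((b (J (v k))).smulRight (v k) -
        (b (v k)).smulRight (J (v k)))) (J t) = J (((8 : ℝ) • ((b (J (v k))).smulRight (v k) -
        (b (v k)).smulRight (J (v k)))) t) := by
      intro t
      simp only [LinearMap.smul_apply, LinearMap.sub_apply, LinearMap.smulRight_apply, map_smul,
        map_sub]
      rw [hb.isom, JJ hb, bJ hb (v k) t]
      simp only [smul_neg, neg_smul, sub_neg_eq_add]
      rw [sub_eq_add_neg, add_comm]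
    have h2 : ∀ l, dd s * a l - a l * dd s =
        ((0 : ℝ) • (1 : Module.End ℝ (H × H)) + (-(8 * b (v k) (v l))) • jj) * a k := by
      intro l
      rw [ha]
      simp only
      rw [comm_av γ s _ hlift hcJ]
      simp only [LinearMap.smul_apply, LinearMap.sub_apply, LinearMap.smulRight_apply]
      have e2 : b (J (v k)) (v l) = 0 := by
        rw [bJ hb]
        by_cases hkl : k = l
        · rw [← hkl, bJself hb, neg_zero]
        · rw [hv.o2 k l hkl, neg_zero]
      rw [e2, zero_smul, zero_sub, smul_neg, smul_smul, ← neg_smul, av_smul, av_J γ hb, zero_smul,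
        zero_add, smul_mul_assoc]
    have h3 := comm_pr a (dd s) _ h2 L
    rw [dr_single a h1 h0 (fun l => (0 : ℝ) • (1 : Module.End ℝ (H × H)) +
      (-(8 * b (v k) (v l))) • jj) (fun l j => hz _ _ j) k L (hLm k), zero_smul, zero_add,
      smul_mul_assoc] at h3
    have h4 := congrArg re h3
    have h5 := congrArg im h3
    rw [re_sub, re_left, re_right, re_smul, re_jj, hs, sub_self] at h4
    rw [im_sub, im_left, im_right, im_smul, im_jj] at h5
    have hne : -(8 * b (v k) (v k)) ≠ 0 := neg_ne_zero.2 (mul_ne_zero (by norm_num) (hv.ne k))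
    have h6 : im (pr a L) = 0 := by
      have := (smul_eq_zero.1 h4.symm).resolve_left hne
      exact neg_eq_zero.1 this
    rw [h6, mul_zero, zero_mul, sub_zero] at h5
    have h7 : re (pr a L) = 0 := (smul_eq_zero.1 h5.symm).resolve_left hne
    exact hA (eq_zero_of _ hjA h7 h6)

end Pool.Agent.W214.KU
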